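import Pool.Agent.Q66.Ab11

set_option autoImplicit false

namespace Pool.Agent.Results.MP_d04ad0_an.EntropyValues

open Q66.Ab

/-- The polynomial `x^3 - x^2 - 1` has exactly one real root `κ`, and every number `s` with
`log κ ≤ s ≤ log ((1+√5)/2)` is the topological entropy of the interval map of `f_{-1,c}` for some
`c ∈ [0,1]` (all these parameters lie in `𝒫`). The entropy is the growth rate of the number of
maximal intervals of monotonicity of the iterates, which exists, and also the growth rate of the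
number of maximal intervals of continuity and monotonicity; both readings `e = ±1` of the value `∞`
at the point `0` are covered. -/
theorem result :
    ∃ κ : ℝ, κ ^ 3 - κ ^ 2 - 1 = 0 ∧ (∀ x : ℝ, x ^ 3 - x ^ 2 - 1 = 0 → x = κ) ∧
      ∀ s : ℝ, Real.log κ ≤ s → s ≤ Real.log ((1 + √5) / 2) →
        ∃ c ∈ Set.Icc (0 : ℝ) 1, InP (-1) c ∧
          ∀ e : ℝ, (e = 1 ∨ e = -1) →
            HasTopEntropy (ftil e (-1) c) s ∧ HasContLapEntropy e (-1) c s := by
  obtain ⟨κ, hκ1, hκ2⟩ : ∃ κ ∈ Set.Icc (1 : ℝ) 2, κ ^ 3 - κ ^ 2 - 1 = 0 := by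
    have hcont : ContinuousOn (fun x : ℝ => x ^ 3 - x ^ 2 - 1) (Set.Icc 1 2) := by fun_prop
    have h := intermediate_value_Icc (show (1 : ℝ) ≤ 2 by norm_num) hcont
    obtain ⟨x, hx, hx2⟩ := h (show (0 : ℝ) ∈ Set.Icc _ _ by constructor <;> norm_num)
    exact ⟨x, hx, hx2⟩
  refine ⟨κ, hκ2, ?_, ?_⟩
  · intro x hx
    have h1 := kappa_gt hκ2
    have h2 := kappa_gt hx
    have h3 : (x - κ) * (x ^ 2 + x * κ + κ ^ 2 - x - κ) = 0 := by ring_nf; linarith
    rcases mul_eq_zero.mp h3 with h4 | h4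
    · linarith
    · exfalso; nlinarith [mul_pos (sub_pos.mpr h1) (sub_pos.mpr h2)]
  · intro s hs1 hs2
    obtain ⟨c, hc, hs⟩ := HH_surj hκ2 hs1 hs2
    have h := inP_path hc.1 hc.2
    refine ⟨c, hc, h, fun e he => ?_⟩
    rw [← hs, HH_eq h]
    exact ⟨hasTopEntropy h he, hasContLapEntropy h⟩

end Pool.Agent.Results.MP_d04ad0_an.EntropyValues
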